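import Mathlib

set_option autoImplicit false

namespace Pool.Agent.H.MP_9e58cf_an

open scoped InnerProductSpace
open InnerProductSpace

variable {H : Type} [NormedAddCommGroup H] [InnerProductSpace ℂ H] [CompleteSpace H]

noncomputable def w (n : ℤ) : ℝ := (1 / 2 : ℝ) ^ n.natAbs

lemma w_pos (n : ℤ) : 0 < w n := by unfold w; positivity

lemma w_ne (n : ℤ) : (w n : ℂ) ≠ 0 := by exact_mod_cast (w_pos n).ne'

lemma w_summable : Summable w := by
  apply Summable.of_nat_of_neg
  · simpa [w] using summable_geometric_two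
  · simpa [w] using summable_geometric_two

noncomputable def B (b : HilbertBasis (Option ℤ) ℂ H) : H →L[ℂ] H :=
  ∑' n : ℤ, (w n : ℂ) • rankOne ℂ (b (some (n + 1))) (b (some n))

lemma B_summable (b : HilbertBasis (Option ℤ) ℂ H) :
    Summable fun n : ℤ => (w n : ℂ) • rankOne ℂ (b (some (n + 1))) (b (some n)) := by
  apply Summable.of_norm
  refine w_summable.congr fun n => ?_
  rw [norm_smul, norm_rankOne, b.orthonormal.1, b.orthonormal.1]
  simp [abs_of_pos (w_pos n)]

lemma B_hasSum (b : HilbertBasis (Option ℤ) ℂ H) (x y : H) :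
    HasSum (fun n : ℤ => (w n : ℂ) * ⟪b (some n), x⟫_ℂ * ⟪y, b (some (n + 1))⟫_ℂ) ⟪y, B b x⟫_ℂ := by
  have h := ((innerSL ℂ y).comp (ContinuousLinearMap.apply ℂ H x)).hasSum (B_summable b).hasSum
  have e : (fun n : ℤ => (w n : ℂ) * ⟪b (some n), x⟫_ℂ * ⟪y, b (some (n + 1))⟫_ℂ) =
      fun n : ℤ => ((innerSL ℂ y).comp (ContinuousLinearMap.apply ℂ H x))
        ((w n : ℂ) • rankOne ℂ (b (some (n + 1))) (b (some n))) := by
    funext n
    simp [inner_smul_right, mul_assoc]
  rw [e]
  exact h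

lemma inner_b (b : HilbertBasis (Option ℤ) ℂ H) (i j : Option ℤ) :
    ⟪b i, b j⟫_ℂ = if i = j then 1 else 0 := by
  classical
  have := (orthonormal_iff_ite.1 b.orthonormal) i j
  convert this

lemma B_none (b : HilbertBasis (Option ℤ) ℂ H) (x : H) : ⟪b none, B b x⟫_ℂ = 0 := by
  have h := B_hasSum b x (b none)
  simp only [inner_b] at h
  simp only [reduceCtorEq, if_false, mul_zero] at h
  exact h.unique hasSum_zero

lemma B_some (b : HilbertBasis (Option ℤ) ℂ H) (x : H) (m : ℤ) :
    ⟪b (some (m + 1)), B b x⟫_ℂ = (w m : ℂ) * ⟪b (some m), x⟫_ℂ := by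
  have h := B_hasSum b x (b (some (m + 1)))
  have h2 : HasSum (fun n : ℤ => (w n : ℂ) * ⟪b (some n), x⟫_ℂ * ⟪b (some (m + 1)), b (some (n + 1))⟫_ℂ)
      ((w m : ℂ) * ⟪b (some m), x⟫_ℂ * ⟪b (some (m + 1)), b (some (m + 1))⟫_ℂ) := by
    apply hasSum_single m
    intro n hn
    rw [inner_b, if_neg, mul_zero]
    intro h
    apply hn
    have := Option.some_injective _ h
    omega
  rw [h.unique h2, inner_b, if_pos rfl, mul_one]

lemma ext_b (b : HilbertBasis (Option ℤ) ℂ H) {x y : H} (h0 : ⟪b none, x⟫_ℂ = ⟪b none, y⟫_ℂ)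
    (h1 : ∀ m : ℤ, ⟪b (some (m + 1)), x⟫_ℂ = ⟪b (some (m + 1)), y⟫_ℂ) : x = y := by
  apply b.repr.injective
  ext i
  rw [b.repr_apply_apply, b.repr_apply_apply]
  cases i with
  | none => exact h0
  | some m => simpa using h1 (m - 1)

lemma B_b_none (b : HilbertBasis (Option ℤ) ℂ H) : B b (b none) = 0 := by
  apply ext_b b
  · simp [B_none]
  · intro m; simp [B_some, inner_b]

lemma B_b_some (b : HilbertBasis (Option ℤ) ℂ H) (n : ℤ) :
    B b (b (some n)) = (w n : ℂ) • b (some (n + 1)) := by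
  apply ext_b b
  · simp [B_none, inner_smul_right, inner_b]
  · intro m
    rw [B_some, inner_smul_right, inner_b, inner_b]
    by_cases h : m = n
    · simp [h]
    · simp [h]

lemma Bs_b_none (b : HilbertBasis (Option ℤ) ℂ H) : (star (B b)) (b none) = 0 := by
  apply ext_inner_right ℂ
  intro x
  rw [ContinuousLinearMap.star_eq_adjoint, ContinuousLinearMap.adjoint_inner_left, B_none]
  simp

lemma Bs_b_some (b : HilbertBasis (Option ℤ) ℂ H) (n : ℤ) :
    (star (B b)) (b (some (n + 1))) = (w n : ℂ) • b (some n) := by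
  apply ext_inner_right ℂ
  intro x
  rw [ContinuousLinearMap.star_eq_adjoint, ContinuousLinearMap.adjoint_inner_left, B_some,
    inner_smul_left]
  simp

lemma defect_summable (b : HilbertBasis (Option ℤ) ℂ H) :
    Summable fun i => ‖(1 - star (1 + B b) * (1 + B b)) (b i)‖ := by
  have e : (1 - star (1 + B b) * (1 + B b)) = -(B b + star (B b) + star (B b) * B b) := by
    rw [star_add, star_one]; noncomm_ring
  rw [e]
  rw [← (Option.some_injective ℤ).summable_iff]
  · have hs : Summable fun n : ℤ => w n + w (n - 1) + ‖star (B b)‖ * w n :=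
      (w_summable.add ((Equiv.subRight (1 : ℤ)).summable_iff.2 w_summable)).add
        (w_summable.mul_left _)
    refine Summable.of_nonneg_of_le (fun _ => norm_nonneg _) (fun n => ?_) hs
    have h1 : ‖B b (b (some n))‖ = w n := by
      rw [B_b_some, norm_smul, b.orthonormal.1]; simp [abs_of_pos (w_pos n)]
    have h2 : ‖(star (B b)) (b (some n))‖ = w (n - 1) := by
      have := Bs_b_some b (n - 1)
      rw [sub_add_cancel] at this
      rw [this, norm_smul, b.orthonormal.1]; simp [abs_of_pos (w_pos _)]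
    have h3 : ‖(star (B b)) (B b (b (some n)))‖ ≤ ‖star (B b)‖ * w n := by
      rw [← h1]; exact ContinuousLinearMap.le_opNorm _ _
    simp only [Function.comp_apply, _root_.neg_apply, _root_.add_apply,
      mul_apply_eq_comp, norm_neg]
    calc _ ≤ ‖B b (b (some n))‖ + ‖(star (B b)) (b (some n))‖ + ‖(star (B b)) (B b (b (some n)))‖ :=
          norm_add₃_le
      _ ≤ _ := by rw [h1, h2]; linarith
  · intro i hi
    cases i with
    | none => simp [B_b_none, Bs_b_none]
    | some m => exact absurd ⟨m, rfl⟩ hi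

lemma norm_sqrt_apply (A : H →L[ℂ] H) (x : H) : ‖CFC.sqrt (star A * A) x‖ = ‖A x‖ := by
  have h0 : (0 : H →L[ℂ] H) ≤ star A * A := star_mul_self_nonneg A
  have h1 : CFC.sqrt (star A * A) * CFC.sqrt (star A * A) = star A * A :=
    CFC.sqrt_mul_sqrt_self _ h0
  have h2 : IsSelfAdjoint (CFC.sqrt (star A * A)) := (CFC.sqrt_nonneg _).isSelfAdjoint
  generalize CFC.sqrt (star A * A) = Q at h1 h2
  have h3 : ⟪Q x, Q x⟫_ℂ = ⟪A x, A x⟫_ℂ := by
    rw [← ContinuousLinearMap.adjoint_inner_right, ← ContinuousLinearMap.adjoint_inner_right A,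
      ← ContinuousLinearMap.star_eq_adjoint, ← ContinuousLinearMap.star_eq_adjoint, h2.star_eq,
      ← mul_apply_eq_comp, h1, mul_apply_eq_comp]
  rw [inner_self_eq_norm_sq_to_K, inner_self_eq_norm_sq_to_K] at h3
  have h4 : ‖Q x‖ ^ 2 = ‖A x‖ ^ 2 := by exact_mod_cast h3
  exact (pow_left_inj₀ (norm_nonneg _) (norm_nonneg _) two_ne_zero).1 h4

lemma trace_summable (b : HilbertBasis (Option ℤ) ℂ H) (A : H →L[ℂ] H)
    (h : Summable fun i => ‖A (b i)‖) :
    Summable fun i => ⟪b i, CFC.sqrt (star A * A) (b i)⟫_ℂ := by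
  refine Summable.of_norm_bounded h fun i => ?_
  rw [← norm_sqrt_apply]
  calc _ ≤ ‖b i‖ * ‖CFC.sqrt (star A * A) (b i)‖ := norm_inner_le_norm _ _
    _ = _ := by rw [b.orthonormal.1, one_mul]

lemma P_comm (b : HilbertBasis (Option ℤ) ℂ H) (X : H →L[ℂ] H) (hX : B b * X = X * B b) :
    X * rankOne ℂ (b none) (b none) = rankOne ℂ (b none) (b none) * X := by
  have hX' : ∀ x, B b (X x) = X (B b x) := fun x => by
    rw [← mul_apply_eq_comp, hX, mul_apply_eq_comp]
  have h1 : X (b none) = ⟪b none, X (b none)⟫_ℂ • b none := by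
    apply ext_b b
    · rw [inner_smul_right, inner_b, if_pos rfl, mul_one]
    · intro m
      have := B_some b (X (b none)) (m + 1)
      rw [hX', B_b_none, map_zero, inner_zero_right] at this
      rw [(mul_eq_zero.1 this.symm).resolve_left (w_ne _)]
      simp [inner_smul_right, inner_b]
  have h2 : ∀ n : ℤ, ⟪b none, X (b (some n))⟫_ℂ = 0 := by
    intro n
    have := B_none b (X (b (some (n - 1))))
    rw [hX', B_b_some, map_smul, inner_smul_right, sub_add_cancel] at this
    exact (mul_eq_zero.1 this).resolve_left (w_ne _)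
  apply ContinuousLinearMap.ext_on (s := Set.range b)
  · rw [Submodule.dense_iff_topologicalClosure_eq_top]; exact b.dense_span
  · rintro _ ⟨i, rfl⟩
    cases i with
    | none =>
      simp only [mul_apply_eq_comp, rankOne_apply, inner_b, if_true, one_smul]
      exact h1
    | some n =>
      simp [mul_apply_eq_comp, rankOne_apply, inner_b, h2]

lemma seq_zero (a : ℕ → ℂ) (u : ℂ) (hu : u ≠ 0) (M : ℝ) (hM : ∀ k, ‖a k‖ ≤ M)
    (c : ℕ → ℂ) (hc : Filter.Tendsto c Filter.atTop (nhds 0))
    (h : ∀ k, u * a k = c k * a (k + 1)) : a 0 = 0 := by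
  have hu' : 0 < ‖u‖ / 2 := by positivity
  obtain ⟨K, hK⟩ := Metric.tendsto_atTop.1 hc _ hu'
  have h1 : ∀ j : ℕ, ∀ k ≥ K, ‖a k‖ ≤ (1 / 2) ^ j * M := by
    intro j
    induction j with
    | zero => intro k _; simpa using hM k
    | succ j ih =>
      intro k hk
      have e := congrArg norm (h k)
      rw [norm_mul, norm_mul] at e
      have h2 := hK k hk
      rw [dist_zero_right] at h2
      have h3 := ih (k + 1) (by omega)
      have h4 : ‖u‖ * ‖a k‖ ≤ ‖u‖ * ((1 / 2) ^ (j + 1) * M) := by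
        rw [e]
        calc _ ≤ (‖u‖ / 2) * ((1 / 2) ^ j * M) :=
              mul_le_mul h2.le h3 (norm_nonneg _) hu'.le
          _ = _ := by ring
      exact le_of_mul_le_mul_left h4 (by positivity)
  have h2 : ∀ k ≥ K, a k = 0 := by
    intro k hk
    have ht : Filter.Tendsto (fun j : ℕ => (1 / 2 : ℝ) ^ j * M) Filter.atTop (nhds (0 * M)) :=
      (tendsto_pow_atTop_nhds_zero_of_lt_one (by norm_num) (by norm_num)).mul_const M
    rw [zero_mul] at ht
    exact norm_le_zero_iff.1 (ge_of_tendsto' ht fun j => h1 j k hk)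
  have h3 : ∀ d k : ℕ, K ≤ k + d → a k = 0 := by
    intro d
    induction d with
    | zero => intro k hk; exact h2 k hk
    | succ d ih =>
      intro k hk
      have := h k
      rw [ih (k + 1) (by omega), mul_zero] at this
      exact (mul_eq_zero.1 this).resolve_left hu
  exact h3 K 0 (by omega)

lemma res_eq (b : HilbertBasis (Option ℤ) ℂ H) (R : H →L[ℂ] H) (u : ℂ)
    (hR : ∀ x, u • R x - B b (R x) = x) :
    ⟪b (some 0), R (b (some 0))⟫_ℂ = ⟪b none, R (b none)⟫_ℂ := by
  have h0 : u * ⟪b none, R (b none)⟫_ℂ = 1 := by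
    have := congrArg (fun v => ⟪b none, v⟫_ℂ) (hR (b none))
    simpa only [inner_sub_right, inner_smul_right, B_none, inner_b, if_true, sub_zero] using this
  have hu : u ≠ 0 := by rintro rfl; simp at h0
  have h1 : ∀ m : ℤ, u * ⟪b (some (m + 1)), R (b (some 0))⟫_ℂ
      - (w m : ℂ) * ⟪b (some m), R (b (some 0))⟫_ℂ = if m + 1 = 0 then 1 else 0 := by
    intro m
    have := congrArg (fun v => ⟪b (some (m + 1)), v⟫_ℂ) (hR (b (some 0)))
    simpa [inner_sub_right, inner_smul_right, B_some, inner_b] using this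
  have h2 : ⟪b (some (-1 - (0 : ℕ))), R (b (some 0))⟫_ℂ = 0 := by
    apply seq_zero (fun k : ℕ => ⟪b (some (-1 - (k : ℤ))), R (b (some 0))⟫_ℂ) u hu
      ‖R (b (some 0))‖ ?_ (fun k : ℕ => (w (-1 - ((k + 1 : ℕ) : ℤ)) : ℂ))
    · have h := (w_summable.comp_injective (i := fun k : ℕ => -1 - ((k + 1 : ℕ) : ℤ))
        (fun a c h => by simp only at h; omega)).tendsto_atTop_zero
      have := (Complex.continuous_ofReal.tendsto 0).comp h
      simpa [Function.comp_def] using this
    · intro k
      have := h1 (-1 - ((k + 1 : ℕ) : ℤ))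
      rw [if_neg (by omega), sub_eq_zero] at this
      rw [← this]
      congr 4
      push_cast; ring
    · intro k
      calc _ ≤ ‖b (some (-1 - (k : ℤ)))‖ * ‖R (b (some 0))‖ := norm_inner_le_norm _ _
        _ = _ := by rw [b.orthonormal.1, one_mul]
  have h3 := h1 (-1)
  simp only [Nat.cast_zero, sub_zero] at h2
  rw [h2] at h3
  simp only [neg_add_cancel, mul_zero, sub_zero, if_true] at h3
  exact mul_left_cancel₀ hu (h3.trans h0.symm)

end Pool.Agent.H.MP_9e58cf_an
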